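import Pool.Agent.T9h60.PC.Core

/-! The number of recurring patterns of primes in windows of length `k`: asymptotic lower bound. -/

set_option autoImplicit false

open Finset Filter

namespace Pool.Agent.T9h60.PC

open Pool.Agent.H358R5 (CHyp Adm)

theorem prime_mem_survivors {i k p : ℕ} (hi : 1 ≤ i) (hp : p.Prime) (h1 : i * k < p) (h2 : p ≤ i * k + k) :
    p - i * k ∈ survivors (i * k) k := by
  refine mem_survivors.2 ⟨⟨by omega, by omega⟩, fun q hq hqk hd => ?_⟩
  rw [Nat.add_sub_cancel' h1.le] at hd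
  have h3 := (Nat.prime_dvd_prime_iff_eq hq hp).1 hd
  have h4 : k ≤ i * k := Nat.le_mul_of_pos_left k hi
  omega

theorem survivors_ge (i k : ℕ) (hi : 1 ≤ i) :
    ((Ioc (i * k) (i * k + k)).filter Nat.Prime).card ≤ (survivors (i * k) k).card := by
  refine Finset.card_le_card_of_injOn (fun p => p - i * k) ?_ ?_
  · intro p hp
    rw [Finset.mem_coe, Finset.mem_filter, Finset.mem_Ioc] at hp
    exact Finset.mem_coe.2 (prime_mem_survivors hi hp.2 hp.1.1 hp.1.2)
  · intro p hp q hq h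
    rw [Finset.mem_coe, Finset.mem_filter, Finset.mem_Ioc] at hp hq
    have h' : p - i * k = q - i * k := h
    omega

open Chebyshev in
theorem theta_window (k : ℕ) (hk : 1 ≤ k) : θ (3 * k : ℕ) - θ (k : ℕ) ≤
    (((Ioc k (3 * k)).filter Nat.Prime).card : ℝ) * Real.log (3 * k : ℕ) := by
  have h1 : θ (3 * k : ℕ) - θ (k : ℕ) = ∑ p ∈ (Ioc k (3 * k)).filter Nat.Prime, Real.log p := by
    rw [theta_eq_sum_Icc, theta_eq_sum_Icc, Nat.floor_natCast, Nat.floor_natCast]
    have h2 : (Icc 0 (3 * k)).filter Nat.Prime =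
        (Icc 0 k).filter Nat.Prime ∪ (Ioc k (3 * k)).filter Nat.Prime := by
      ext p
      simp only [mem_filter, mem_Icc, mem_union, mem_Ioc]
      constructor
      · rintro ⟨h3, h4⟩
        by_cases h5 : p ≤ k
        · exact Or.inl ⟨⟨by omega, h5⟩, h4⟩
        · exact Or.inr ⟨⟨by omega, by omega⟩, h4⟩
      · rintro (⟨h3, h4⟩ | ⟨h3, h4⟩)
        · exact ⟨⟨by omega, by omega⟩, h4⟩
        · exact ⟨⟨by omega, by omega⟩, h4⟩
    have h3 : Disjoint ((Icc 0 k).filter Nat.Prime) ((Ioc k (3 * k)).filter Nat.Prime) := by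
      rw [Finset.disjoint_left]
      intro p hp hq
      simp only [mem_filter, mem_Icc, mem_Ioc] at hp hq
      omega
    rw [h2, Finset.sum_union h3]
    ring
  rw [h1]
  calc ∑ p ∈ (Ioc k (3 * k)).filter Nat.Prime, Real.log p
      ≤ ∑ _p ∈ (Ioc k (3 * k)).filter Nat.Prime, Real.log (3 * k : ℕ) := by
        refine Finset.sum_le_sum fun p hp => ?_
        rw [Finset.mem_filter, Finset.mem_Ioc] at hp
        exact Real.log_le_log (by exact_mod_cast hp.2.pos) (by exact_mod_cast hp.1.2)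
    _ = _ := by rw [Finset.sum_const, nsmul_eq_mul]

open Chebyshev in
theorem theta_diff : ∀ᶠ k : ℕ in atTop, (k : ℝ) / 2 ≤ θ (3 * k : ℕ) - θ (k : ℕ) := by
  have h1 : ∀ k : ℕ, 1 ≤ k → ((3 * k : ℕ) : ℝ) * Real.log 2 - Real.log ((3 * k : ℕ) + 1) -
      2 * √((3 * k : ℕ) : ℝ) * Real.log (3 * k : ℕ) - Real.log 4 * (k : ℕ) ≤ θ (3 * k : ℕ) - θ (k : ℕ) := by
    intro k hk
    have h2 := theta_ge (3 * k)
    have h3 := theta_le_log4_mul_x (x := (k : ℕ)) (Nat.cast_nonneg k)
    linarith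
  have h4 : Real.log 4 = 2 * Real.log 2 := by
    rw [show (4 : ℝ) = 2 ^ 2 by norm_num, Real.log_pow]
    norm_num
  -- the error terms
  have e1 : ∀ᶠ x : ℝ in atTop, Real.log (x + 1) ≤ x / 60 := by
    have := (Real.isLittleO_log_id_atTop.def (show (0 : ℝ) < 1 / 120 by norm_num))
    filter_upwards [this, eventually_ge_atTop (1 : ℝ), eventually_ge_atTop (120 * Real.log 2)] with x hx hx1 hx2
    rw [Real.norm_of_nonneg (Real.log_nonneg hx1), id, Real.norm_of_nonneg (by linarith)] at hx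
    have h5 : Real.log (x + 1) ≤ Real.log (2 * x) := Real.log_le_log (by linarith) (by linarith)
    rw [Real.log_mul (by norm_num) (by linarith)] at h5
    linarith
  have e2 : ∀ᶠ x : ℝ in atTop, 2 * √x * Real.log x ≤ x / 60 := by
    have := ((isLittleO_log_rpow_atTop (show (0 : ℝ) < 1 / 2 by norm_num)).def
      (show (0 : ℝ) < 1 / 120 by norm_num))
    filter_upwards [this, eventually_ge_atTop (1 : ℝ)] with x hx hx1
    rw [Real.norm_of_nonneg (Real.log_nonneg hx1), Real.norm_of_nonneg (Real.rpow_nonneg (by linarith) _),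
      ← Real.sqrt_eq_rpow] at hx
    have h5 : 0 ≤ √x := Real.sqrt_nonneg x
    have h6 : √x * √x = x := Real.mul_self_sqrt (by linarith)
    nlinarith
  have hc : Tendsto (fun k : ℕ => ((3 * k : ℕ) : ℝ)) atTop atTop :=
    tendsto_natCast_atTop_atTop.comp (tendsto_id.const_mul_atTop' (by norm_num))
  filter_upwards [hc.eventually e1, hc.eventually e2, eventually_ge_atTop 1] with k hk1 hk2 hk3
  have h5 := h1 k hk3
  have h6 := Real.log_two_gt_d9
  rw [h4] at h5
  push_cast at h5 hk1 hk2 ⊢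
  have h7 : (1 : ℝ) ≤ k := by exact_mod_cast hk3
  nlinarith

theorem exists_window (η : ℝ) (hη : 0 < η) : ∀ᶠ k : ℕ in atTop, ∃ j : ℕ,
    (k : ℝ) ^ (1 - η) ≤ ((survivors j k).card : ℝ) := by
  have e1 : ∀ᶠ x : ℝ in atTop, 4 * Real.log (3 * x) ≤ x ^ η := by
    have := ((isLittleO_log_rpow_atTop hη).def (show (0 : ℝ) < 1 / 8 by norm_num))
    filter_upwards [this, eventually_ge_atTop (1 : ℝ),
      (tendsto_rpow_atTop hη).eventually_ge_atTop (8 * Real.log 3)] with x hx hx1 hx2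
    rw [Real.norm_of_nonneg (Real.log_nonneg hx1), Real.norm_of_nonneg (Real.rpow_nonneg (by linarith) _)] at hx
    rw [Real.log_mul (by norm_num) (by linarith)]
    linarith
  filter_upwards [theta_diff, tendsto_natCast_atTop_atTop.eventually e1, eventually_ge_atTop 2] with k h1 h2 h3
  have h4 := theta_window k (by omega)
  have hk : (2 : ℝ) ≤ k := by exact_mod_cast h3
  have hlog : 0 < Real.log (3 * k : ℕ) := Real.log_pos (by push_cast; linarith)
  set a := ((Ioc k (2 * k)).filter Nat.Prime).card with ha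
  set b := ((Ioc (2 * k) (3 * k)).filter Nat.Prime).card with hb
  have hab : ((Ioc k (3 * k)).filter Nat.Prime).card ≤ a + b := by
    rw [ha, hb]
    refine le_trans (Finset.card_le_card ?_) (Finset.card_union_le _ _)
    intro p hp
    simp only [mem_filter, mem_Ioc, mem_union] at hp ⊢
    by_cases h5 : p ≤ 2 * k
    · exact Or.inl ⟨⟨hp.1.1, h5⟩, hp.2⟩
    · exact Or.inr ⟨⟨by omega, hp.1.2⟩, hp.2⟩
  have h5 : (k : ℝ) / 2 ≤ ((a : ℝ) + b) * Real.log (3 * k : ℕ) := by
    refine h1.trans (h4.trans ?_)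
    gcongr
    exact_mod_cast hab
  have h6 : (k : ℝ) ^ (1 - η) * (k : ℝ) ^ η = k := by
    rw [← Real.rpow_add (by linarith)]
    simp
  have h7 : (k : ℝ) ^ (1 - η) ≤ max (a : ℝ) b := by
    have h8 : (a : ℝ) + b ≤ 2 * max (a : ℝ) b := by
      have := le_max_left (a : ℝ) b
      have := le_max_right (a : ℝ) b
      linarith
    have h9 : (0 : ℝ) ≤ max (a : ℝ) b := le_max_of_le_left (Nat.cast_nonneg a)
    have h10 : 0 < (k : ℝ) ^ η := Real.rpow_pos_of_pos (by linarith) _
    push_cast at h5 hlog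
    by_contra hcon
    push Not at hcon
    have h11 : (k : ℝ) / 2 ≤ 2 * max (a : ℝ) b * Real.log (3 * k) :=
      h5.trans (mul_le_mul_of_nonneg_right h8 hlog.le)
    have h12 : 2 * max (a : ℝ) b * Real.log (3 * k) ≤ max (a : ℝ) b * ((k : ℝ) ^ η / 2) := by
      nlinarith
    have h13 : max (a : ℝ) b * ((k : ℝ) ^ η / 2) < (k : ℝ) ^ (1 - η) * ((k : ℝ) ^ η / 2) :=
      mul_lt_mul_of_pos_right hcon (by positivity)
    nlinarith
  rcases le_total (a : ℝ) b with hle | hle
  · refine ⟨2 * k, ?_⟩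
    rw [max_eq_right hle] at h7
    refine h7.trans ?_
    have := survivors_ge 2 k (by norm_num)
    rw [show 2 * k + k = 3 * k by ring] at this
    exact_mod_cast this
  · refine ⟨1 * k, ?_⟩
    rw [max_eq_left hle] at h7
    refine h7.trans ?_
    have := survivors_ge 1 k le_rfl
    rw [show 1 * k + k = 2 * k by ring] at this
    have e : Ioc (1 * k) (2 * k) = Ioc k (2 * k) := by rw [one_mul]
    rw [e] at this
    exact_mod_cast this

theorem desc_le {h K : ℕ} (hKh : K ≤ h) (m : ℕ) :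
    h ^ m * K.descFactorial m ≤ K ^ m * h.descFactorial m := by
  induction m with
  | zero => simp
  | succ m ih =>
    rw [Nat.descFactorial_succ, Nat.descFactorial_succ, pow_succ, pow_succ]
    have h1 : h * (K - m) ≤ K * (h - m) := by
      rcases Nat.le_total K m with h2 | h2
      · rw [Nat.sub_eq_zero_of_le h2]
        simp
      · rw [Nat.mul_sub, Nat.mul_sub, Nat.mul_comm h K]
        exact Nat.sub_le_sub_left (Nat.mul_le_mul_right m hKh) _
    calc h ^ m * h * ((K - m) * K.descFactorial m) = (h ^ m * K.descFactorial m) * (h * (K - m)) := by ring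
      _ ≤ (K ^ m * h.descFactorial m) * (K * (h - m)) := Nat.mul_le_mul ih h1
      _ = K ^ m * K * ((h - m) * h.descFactorial m) := by ring

theorem choose_ratio {h K m : ℕ} (hKh : K ≤ h) : h ^ m * K.choose m ≤ K ^ m * h.choose m := by
  have h1 := desc_le hKh m
  rw [Nat.descFactorial_eq_factorial_mul_choose, Nat.descFactorial_eq_factorial_mul_choose] at h1
  have h2 : 0 < m.factorial := Nat.factorial_pos m
  refine Nat.le_of_mul_le_mul_left ?_ h2
  calc m.factorial * (h ^ m * K.choose m) = h ^ m * (m.factorial * K.choose m) := by ring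
    _ ≤ K ^ m * (m.factorial * h.choose m) := h1
    _ = m.factorial * (K ^ m * h.choose m) := by ring

/-- the lower bound `(h / K) ^ (t + 1)` -/
theorem count_pow {t K : ℕ} (hC : CHyp t K) {j k : ℕ} (hK : K ≤ (survivors j k).card) (ht : t + 1 ≤ K) :
    (((survivors j k).card : ℝ) / K) ^ (t + 1) ≤
      (Set.ncard {B : Finset ℕ | t + 1 ≤ B.card ∧ Recurs j k B} : ℝ) := by
  have h1 := count_patterns hC hK
  have h2 := choose_ratio (m := t + 1) hK
  set h := (survivors j k).card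
  set N := Set.ncard {B : Finset ℕ | t + 1 ≤ B.card ∧ Recurs j k B}
  have hK0 : 0 < K := by omega
  have hc : 0 < K.choose (t + 1) := Nat.choose_pos ht
  rw [div_pow, div_le_iff₀ (by positivity)]
  have h3 : h ^ (t + 1) * K.choose (t + 1) ≤ K ^ (t + 1) * (K.choose (t + 1) * N) :=
    h2.trans (Nat.mul_le_mul_left _ h1)
  have h4 : h ^ (t + 1) ≤ N * K ^ (t + 1) := by
    refine Nat.le_of_mul_le_mul_right ?_ hc
    calc h ^ (t + 1) * K.choose (t + 1) ≤ K ^ (t + 1) * (K.choose (t + 1) * N) := h3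
      _ = N * K ^ (t + 1) * K.choose (t + 1) := by ring
  exact_mod_cast h4

/-- **Superpolynomially many recurring patterns.** -/
theorem many_patterns (hC : ∀ t K : ℕ, 2 ≤ t → 4 * (t : ℝ) + 29 / 50 ≤ Real.log K → CHyp t K) (ε : ℝ) (hε : 0 < ε) :
    ∀ᶠ k : ℕ in atTop, ∃ j : ℕ, Real.exp ((1 / 16 - ε) * (Real.log k) ^ 2) ≤
      (Set.ncard {B : Finset ℕ | Recurs j k B} : ℝ) := by
  set η : ℝ := min (4 * ε) (1 / 2) with hη
  have hη0 : 0 < η := lt_min (by linarith) (by norm_num)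
  have hη1 : η ≤ 4 * ε := min_le_left _ _
  have hη2 : η ≤ 1 / 2 := min_le_right _ _
  have hlog : Tendsto (fun k : ℕ => Real.log k) atTop atTop :=
    Real.tendsto_log_atTop.comp tendsto_natCast_atTop_atTop
  filter_upwards [exists_window η hη0, hlog.eventually_ge_atTop 64, hlog.eventually_ge_atTop (1 / ε),
    eventually_ge_atTop 2] with k ⟨j, hj⟩ hL1 hL2 hk2
  refine ⟨j, ?_⟩
  set L : ℝ := Real.log k with hL
  set h : ℕ := (survivors j k).card with hh
  have hk0 : (0 : ℝ) < k := by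
    have : (2 : ℝ) ≤ k := by exact_mod_cast hk2
    linarith
  set t : ℕ := ⌊(1 - η) * L / 8⌋₊ with ht
  have hpos : 0 ≤ (1 - η) * L / 8 := by
    have : 0 ≤ (1 - η) * L := mul_nonneg (by linarith) (by linarith)
    linarith
  have ht1 : (t : ℝ) ≤ (1 - η) * L / 8 := Nat.floor_le hpos
  have ht2 : (1 - η) * L / 8 < t + 1 := Nat.lt_floor_add_one _
  have ht3 : 2 ≤ t := by
    refine Nat.le_floor ?_
    push_cast
    nlinarith
  set K : ℕ := ⌈Real.exp (4 * t + 29 / 50)⌉₊ with hK
  have hK1 : Real.exp (4 * t + 29 / 50) ≤ K := Nat.le_ceil _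
  have hKpos : (0 : ℝ) < K := lt_of_lt_of_le (Real.exp_pos _) hK1
  have hlogK : 4 * (t : ℝ) + 29 / 50 ≤ Real.log K := (Real.le_log_iff_exp_le hKpos).2 hK1
  have hK2 : (K : ℝ) ≤ Real.exp (4 * t + 1) := by
    have h1 : (K : ℝ) < Real.exp (4 * t + 29 / 50) + 1 := Nat.ceil_lt_add_one (Real.exp_pos _).le
    have h2 : Real.exp (4 * (t : ℝ) + 1) = Real.exp (4 * t + 29 / 50) * Real.exp (21 / 50) := by
      rw [← Real.exp_add]
      congr 1
      ring
    have h3 : (21 : ℝ) / 50 + 1 ≤ Real.exp (21 / 50) := Real.add_one_le_exp _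
    have h4 : 4 * (t : ℝ) + 29 / 50 + 1 ≤ Real.exp (4 * (t : ℝ) + 29 / 50) := Real.add_one_le_exp _
    have h5 : (2 : ℝ) ≤ t := by exact_mod_cast ht3
    rw [h2]
    nlinarith
  have hhk : Real.exp ((1 - η) * L) ≤ h := by
    have h1 : (k : ℝ) ^ (1 - η) = Real.exp ((1 - η) * L) := by
      rw [Real.rpow_def_of_pos hk0, mul_comm]
    rw [← h1]
    exact hj
  have hKh : K ≤ h := by
    have h1 : (K : ℝ) ≤ h := by
      refine hK2.trans (le_trans (Real.exp_le_exp.2 ?_) hhk)
      nlinarith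
    exact_mod_cast h1
  have htK : t + 1 ≤ K := by
    have h1 : ((t + 1 : ℕ) : ℝ) ≤ K := by
      have h4 : 4 * (t : ℝ) + 29 / 50 + 1 ≤ Real.exp (4 * (t : ℝ) + 29 / 50) := Real.add_one_le_exp _
      push_cast
      have h5 : (2 : ℝ) ≤ t := by exact_mod_cast ht3
      linarith
    exact_mod_cast h1
  have hmain := count_pow (hC t K ht3 hlogK) hKh htK
  have hsub : (Set.ncard {B : Finset ℕ | t + 1 ≤ B.card ∧ Recurs j k B} : ℝ) ≤
      (Set.ncard {B : Finset ℕ | Recurs j k B} : ℝ) := by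
    have hf : {B : Finset ℕ | Recurs j k B}.Finite :=
      (finite_recurs j k 0).subset fun B hB => ⟨Nat.zero_le _, hB⟩
    have hs : {B : Finset ℕ | t + 1 ≤ B.card ∧ Recurs j k B} ⊆ {B : Finset ℕ | Recurs j k B} :=
      fun B hB => hB.2
    exact_mod_cast Set.ncard_le_ncard hs hf
  refine le_trans ?_ (hmain.trans hsub)
  have hratio : Real.exp ((1 - η) * L / 2 - 1) ≤ (h : ℝ) / K := by
    rw [le_div_iff₀ hKpos]
    calc Real.exp ((1 - η) * L / 2 - 1) * K ≤ Real.exp ((1 - η) * L / 2 - 1) * Real.exp (4 * t + 1) :=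
          mul_le_mul_of_nonneg_left hK2 (Real.exp_pos _).le
      _ = Real.exp ((1 - η) * L / 2 - 1 + (4 * t + 1)) := by rw [← Real.exp_add]
      _ ≤ Real.exp ((1 - η) * L) := Real.exp_le_exp.2 (by linarith)
      _ ≤ h := hhk
  calc Real.exp ((1 / 16 - ε) * L ^ 2) ≤ Real.exp ((t + 1 : ℕ) * ((1 - η) * L / 2 - 1)) := by
        refine Real.exp_le_exp.2 ?_
        push_cast
        have h1 : 0 ≤ (1 - η) * L / 2 - 1 := by nlinarith
        have h2 : (1 - η) * L / 8 * ((1 - η) * L / 2 - 1) ≤ ((t : ℝ) + 1) * ((1 - η) * L / 2 - 1) :=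
          mul_le_mul_of_nonneg_right ht2.le h1
        refine le_trans ?_ h2
        have h3 : 1 ≤ ε * L := by
          rw [div_le_iff₀ hε] at hL2
          linarith
        nlinarith [sq_nonneg (η * L), sq_nonneg L, mul_nonneg hη0.le (sq_nonneg L)]
    _ = Real.exp ((1 - η) * L / 2 - 1) ^ (t + 1) := by rw [← Real.exp_nat_mul]
    _ ≤ ((h : ℝ) / K) ^ (t + 1) := pow_le_pow_left₀ (Real.exp_pos _).le hratio _

end Pool.Agent.T9h60.PC
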