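import Mathlib
import Pool.Agent.H358R5.Stubs2

/-! Recurring patterns of primes in windows: exactness by congruences, and the counting of patterns. -/

set_option autoImplicit false

open Finset Filter

namespace Pool.Agent.T9h60.PC

open Pool.Agent.H358R5 (CHyp Adm)

open scoped Classical in
/-- The positions `y` of `(0, k]` which survive the sieve in the window `(j, j + k]`: no prime `p ≤ k` divides
`j + y`. Their number is `h_j(k)`. -/
noncomputable def survivors (j k : ℕ) : Finset ℕ :=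
  (Ioc 0 k).filter fun y => ∀ p : ℕ, p.Prime → p ≤ k → ¬ p ∣ j + y

/-- The positions `y` of `(0, k]` such that `x + y` is prime. -/
def primePattern (x k : ℕ) : Finset ℕ := (Ioc 0 k).filter fun y => (x + y).Prime

/-- `B` is the set of the positions of the primes in the window `(x, x + k]` for many `x` which are
congruent to `j` modulo all primes `p ≤ k`: for every `ε > 0`, for at least `X ^ (1 - ε)` of the `x ≤ X`, for
arbitrarily large `X`. -/
def Recurs (j k : ℕ) (B : Finset ℕ) : Prop :=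
  ∀ ε : ℝ, 0 < ε → ∃ᶠ X : ℝ in atTop, X ^ (1 - ε) ≤
    (Set.ncard {x : ℕ | (x : ℝ) ≤ X ∧ (∀ p : ℕ, p.Prime → p ≤ k → x ≡ j [MOD p]) ∧
      primePattern x k = B} : ℝ)

theorem mem_survivors {j k y : ℕ} : y ∈ survivors j k ↔
    (0 < y ∧ y ≤ k) ∧ ∀ p : ℕ, p.Prime → p ≤ k → ¬ p ∣ j + y := by
  classical
  unfold survivors
  rw [Finset.mem_filter, Finset.mem_Ioc]

theorem mem_primePattern {x k y : ℕ} : y ∈ primePattern x k ↔ (0 < y ∧ y ≤ k) ∧ (x + y).Prime := by
  unfold primePattern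
  rw [Finset.mem_filter, Finset.mem_Ioc]

theorem fin_set (X : ℝ) (P : ℕ → Prop) : {x : ℕ | (x : ℝ) ≤ X ∧ P x}.Finite :=
  (Set.finite_Iic ⌊X⌋₊).subset fun _ hx => Nat.le_floor hx.1

theorem dvd_primorial {p k : ℕ} (hp : p.Prime) (hpk : p ≤ k) : p ∣ primorial k := by
  unfold primorial
  exact dvd_prod_of_mem _ (by simp [hp]; omega)

theorem squarefree_primorial (k : ℕ) : Squarefree (primorial k) := by
  unfold primorial
  refine Finset.squarefree_prod_of_pairwise_isCoprime ?_ ?_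
  · intro a ha b hb hab
    simp only [coe_filter, mem_range, Set.mem_ofPred_eq] at ha hb
    exact (Nat.coprime_iff_isRelPrime.1 ((Nat.coprime_primes ha.2 hb.2).2 hab))
  · intro p hp
    simp only [mem_filter, mem_range] at hp
    exact hp.2.prime.squarefree

/-- distinct primes larger than `k`, indexed by the positions -/
noncomputable def qq (k s : ℕ) : ℕ := Nat.nth Nat.Prime (k + s)

theorem qq_prime (k s : ℕ) : (qq k s).Prime := Nat.prime_nth_prime _

theorem qq_lt (k s : ℕ) : k + s < qq k s := by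
  have h : ∀ n : ℕ, n < Nat.nth Nat.Prime n := by
    intro n
    induction n with
    | zero => exact (Nat.prime_nth_prime 0).pos
    | succ m ih => exact lt_of_le_of_lt ih (Nat.nth_strictMono Nat.infinite_setOfPred_prime (Nat.lt_succ_self m))
  exact h _

theorem qq_inj (k : ℕ) : Function.Injective (qq k) := by
  intro a b h
  have := (Nat.nth_strictMono Nat.infinite_setOfPred_prime).injective h
  omega

theorem dvd_prod_qq {k p : ℕ} {S : Finset ℕ} (hp : p.Prime) (h : p ∣ ∏ s ∈ S, qq k s) :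
    ∃ s ∈ S, p = qq k s := by
  obtain ⟨s, hs, hd⟩ := (Prime.dvd_finsetProd_iff hp.prime _).1 h
  exact ⟨s, hs, (Nat.prime_dvd_prime_iff_eq hp (qq_prime k s)).1 hd⟩

theorem squarefree_prod_qq (k : ℕ) (S : Finset ℕ) : Squarefree (∏ s ∈ S, qq k s) := by
  refine Finset.squarefree_prod_of_pairwise_isCoprime ?_ ?_
  · intro a _ b _ hab
    exact Nat.coprime_iff_isRelPrime.1
      ((Nat.coprime_primes (qq_prime k a) (qq_prime k b)).2 fun h => hab (qq_inj k h))
  · intro s _
    exact (qq_prime k s).prime.squarefree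

theorem coprime_qq (k : ℕ) (S : Finset ℕ) : (primorial k).Coprime (∏ s ∈ S, qq k s) := by
  rw [Nat.coprime_prod_right_iff]
  intro s _
  refine Nat.Coprime.symm ((Nat.Prime.coprime_iff_not_dvd (qq_prime k s)).2 fun h => ?_)
  unfold primorial at h
  obtain ⟨q, hq, hd⟩ := (Prime.dvd_finsetProd_iff (qq_prime k s).prime _).1 h
  rw [Finset.mem_filter, Finset.mem_range] at hq
  have h1 := (Nat.prime_dvd_prime_iff_eq (qq_prime k s) hq.2).1 hd
  have h2 := qq_lt k s
  omega

/-- subtraction of a constant -/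
theorem sub_const {f : ℝ → ℝ} (M : ℝ) (h : ∀ ε : ℝ, 0 < ε → ∀ᶠ X : ℝ in atTop, X ^ (1 - ε) ≤ f X) :
    ∀ ε : ℝ, 0 < ε → ∀ᶠ X : ℝ in atTop, X ^ (1 - ε) ≤ f X - M := by
  intro ε hε
  set η : ℝ := min ε (1 / 2) with hη
  have h0 : 0 < η := lt_min hε (by norm_num)
  have h1 : η ≤ ε := min_le_left _ _
  have h2 : η ≤ 1 / 2 := min_le_right _ _
  filter_upwards [h (η / 2) (by linarith), eventually_ge_atTop (1 : ℝ),
    (tendsto_rpow_atTop (show (0 : ℝ) < η / 2 by linarith)).eventually_ge_atTop 2,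
    (tendsto_rpow_atTop (show (0 : ℝ) < 1 / 2 by norm_num)).eventually_ge_atTop M] with X hX h3 h4 h5
  have h6 : X ^ (1 - ε) ≤ X ^ (1 - η) := Real.rpow_le_rpow_of_exponent_le h3 (by linarith)
  have h7 : M ≤ X ^ (1 - η) := h5.trans (Real.rpow_le_rpow_of_exponent_le h3 (by linarith))
  have h8 : X ^ (1 - η / 2) = X ^ (1 - η) * X ^ (η / 2) := by
    rw [← Real.rpow_add (by linarith)]
    congr 1
    ring
  have h9 : 0 ≤ X ^ (1 - η) := Real.rpow_nonneg (by linarith) _
  nlinarith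

theorem sub_pattern {t K : ℕ} (hC : CHyp t K) {j k : ℕ} {T : Finset ℕ} (hT : T ⊆ survivors j k)
    (hc : T.card = K) : ∀ ε : ℝ, 0 < ε → ∀ᶠ X : ℝ in atTop, X ^ (1 - ε) ≤
      (Set.ncard {x : ℕ | (x : ℝ) ≤ X ∧ (∀ p : ℕ, p.Prime → p ≤ k → x ≡ j [MOD p]) ∧
        (primePattern x k ⊆ T ∧ t + 1 ≤ (primePattern x k).card)} : ℝ) := by
  classical
  set S : Finset ℕ := survivors j k \ T with hS
  set P : ℕ := ∏ s ∈ S, qq k s with hP
  -- the residue class
  obtain ⟨b1, hb1⟩ := Nat.chineseRemainderOfFinset (fun s => qq k s - s) (fun s => qq k s) S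
    (fun s _ => (qq_prime k s).ne_zero)
    (fun a _ b _ hab => (Nat.coprime_primes (qq_prime k a) (qq_prime k b)).2 fun h => hab (qq_inj k h))
  obtain ⟨b, hbj, hbP⟩ := Nat.chineseRemainder (coprime_qq k S) j b1
  have hbs : ∀ s ∈ S, qq k s ∣ b + s := by
    intro s hs
    have h1 : b ≡ b1 [MOD qq k s] := hbP.of_dvd (Finset.dvd_prod_of_mem _ hs)
    have h2 : b ≡ qq k s - s [MOD qq k s] := h1.trans (hb1 s hs)
    have h3 : b + s ≡ qq k s - s + s [MOD qq k s] := h2.add_right s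
    have h4 := qq_lt k s
    rw [Nat.sub_add_cancel (by omega)] at h3
    exact (Nat.modEq_zero_iff_dvd).1 (h3.trans ((Nat.modEq_zero_iff_dvd).2 dvd_rfl))
  have hbp : ∀ p : ℕ, p.Prime → p ≤ k → b ≡ j [MOD p] := fun p hp hpk =>
    hbj.of_dvd (dvd_primorial hp hpk)
  -- the tuple
  let h : Fin K → ℕ := fun i => T.orderEmbOfFin hc i
  have hmem : ∀ i, h i ∈ T := fun i => T.orderEmbOfFin_mem hc i
  have hinj : Function.Injective h := (T.orderEmbOfFin hc).injective
  have hsurv : ∀ i, (0 < h i ∧ h i ≤ k) ∧ ∀ p : ℕ, p.Prime → p ≤ k → ¬ p ∣ j + h i :=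
    fun i => mem_survivors.1 (hT (hmem i))
  have hAdm : Adm h := by
    refine ⟨hinj, fun p hp => ?_⟩
    by_cases hpk : p ≤ k
    · exact ⟨j, fun i => (hsurv i).2 p hp hpk⟩
    · refine ⟨0, fun i hd => ?_⟩
      rw [zero_add] at hd
      have := Nat.le_of_dvd (hsurv i).1.1 hd
      have := (hsurv i).1.2
      omega
  have hcop : ∀ i, (b + h i).Coprime (primorial k * P) := by
    intro i
    refine Nat.Coprime.mul_right ?_ ?_
    · refine Nat.Coprime.symm ?_
      unfold primorial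
      refine Nat.Coprime.prod_left fun p hp => ?_
      rw [Finset.mem_filter, Finset.mem_range] at hp
      refine (Nat.Prime.coprime_iff_not_dvd hp.2).2 fun hd => ?_
      refine (hsurv i).2 p hp.2 (by omega) ?_
      exact ((hbp p hp.2 (by omega)).add_right (h i)).dvd_iff dvd_rfl |>.1 hd
    · rw [hP, Nat.coprime_prod_right_iff]
      intro s hs
      refine Nat.Coprime.symm ((Nat.Prime.coprime_iff_not_dvd (qq_prime k s)).2 fun hd => ?_)
      have h1 := hbs s hs
      have hs' := Finset.mem_sdiff.1 hs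
      have h2 := (mem_survivors.1 hs'.1).1
      have h3 := (hsurv i).1
      have h4 := qq_lt k s
      have hne : h i ≠ s := fun he => hs'.2 (he ▸ hmem i)
      rcases Nat.lt_or_gt_of_ne hne with hlt | hlt
      · have h5 : qq k s ∣ (b + s) - (b + h i) := Nat.dvd_sub h1 hd
        have h6 := Nat.le_of_dvd (by omega) h5
        omega
      · have h5 : qq k s ∣ (b + h i) - (b + s) := Nat.dvd_sub hd h1
        have h6 := Nat.le_of_dvd (by omega) h5
        omega
  have hsq : Squarefree (primorial k * P) :=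
    (Nat.squarefree_mul (coprime_qq k S)).2 ⟨squarefree_primorial k, squarefree_prod_qq k S⟩
  have hmain := hC h hAdm (primorial k * P) b hsq hcop
  set M : ℕ := k + P with hM
  have hPpos : 0 < P := Nat.pos_of_ne_zero (squarefree_prod_qq k S).ne_zero
  intro ε hε
  filter_upwards [sub_const (M : ℝ) hmain ε hε, eventually_ge_atTop (0 : ℝ)] with X hX hX0
  refine hX.trans ?_
  set A : Finset ℕ := (Icc 1 ⌊X⌋₊).filter (fun n : ℕ => n ≡ b [MOD primorial k * P] ∧
      t + 1 ≤ (univ.filter fun i => (n + h i).Prime).card) with hA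
  set W : Set ℕ := {x : ℕ | (x : ℝ) ≤ X ∧ (∀ p : ℕ, p.Prime → p ≤ k → x ≡ j [MOD p]) ∧
        (primePattern x k ⊆ T ∧ t + 1 ≤ (primePattern x k).card)} with hW
  have hWf : W.Finite := fin_set X _
  have hsub : A ⊆ hWf.toFinset ∪ Icc 1 M := by
    intro n hn
    rw [hA, Finset.mem_filter, Finset.mem_Icc] at hn
    obtain ⟨⟨hn1, hn2⟩, hn3, hn4⟩ := hn
    rw [Finset.mem_union]
    by_cases hnM : n ≤ M
    · exact Or.inr (Finset.mem_Icc.2 ⟨hn1, hnM⟩)
    · left
      rw [Set.Finite.mem_toFinset]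
      push Not at hnM
      have hnp : ∀ p : ℕ, p.Prime → p ≤ k → n ≡ j [MOD p] := fun p hp hpk =>
        (hn3.of_dvd ((dvd_primorial hp hpk).mul_right P)).trans (hbp p hp hpk)
      have hsubT : primePattern n k ⊆ T := by
        intro y hy
        obtain ⟨hy1, hy2⟩ := mem_primePattern.1 hy
        by_contra hyT
        by_cases hyS : y ∈ survivors j k
        · have hyS' : y ∈ S := Finset.mem_sdiff.2 ⟨hyS, hyT⟩
          have h1 : n ≡ b [MOD qq k y] :=
            hn3.of_dvd ((Finset.dvd_prod_of_mem _ hyS').mul_left (primorial k))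
          have h2 : qq k y ∣ n + y := ((h1.add_right y).dvd_iff dvd_rfl).2 (hbs y hyS')
          have h3 := (Nat.prime_dvd_prime_iff_eq (qq_prime k y) hy2).1 h2
          have h4 : qq k y ≤ P := Nat.le_of_dvd hPpos (Finset.dvd_prod_of_mem _ hyS')
          omega
        · rw [mem_survivors] at hyS
          push Not at hyS
          obtain ⟨p, hp, hpk, hpd⟩ := hyS hy1
          have h2 : p ∣ n + y := (((hnp p hp hpk).add_right y).dvd_iff dvd_rfl).2 hpd
          have h3 := (Nat.prime_dvd_prime_iff_eq hp hy2).1 h2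
          omega
      refine ⟨?_, hnp, hsubT, ?_⟩
      · exact (Nat.le_floor_iff hX0).1 hn2
      · refine hn4.trans (Finset.card_le_card_of_injOn h ?_ ?_)
        · intro i hi
          have hi' : (n + h i).Prime := (Finset.mem_filter.1 (Finset.mem_coe.1 hi)).2
          exact Finset.mem_coe.2 (mem_primePattern.2 ⟨(hsurv i).1, hi'⟩)
        · intro i _ i' _ hii
          exact hinj hii
  have hcard : (A.card : ℝ) ≤ (W.ncard : ℝ) + M := by
    rw [Set.ncard_eq_toFinset_card _ hWf]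
    have h1 := Finset.card_le_card hsub
    have h2 := Finset.card_union_le hWf.toFinset (Icc 1 M)
    rw [Nat.card_Icc, Nat.add_sub_cancel] at h2
    exact_mod_cast h1.trans h2
  linarith

/-- If all large `X` have many `x` with a property with values in a finite set, one value occurs often. -/
theorem pigeon {F : ℕ → Finset ℕ} {Q : ℕ → Prop} (𝓑 : Finset (Finset ℕ))
    (h : ∀ ε : ℝ, 0 < ε → ∀ᶠ X : ℝ in atTop, X ^ (1 - ε) ≤
      (Set.ncard {x : ℕ | (x : ℝ) ≤ X ∧ Q x ∧ F x ∈ 𝓑} : ℝ)) :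
    ∃ B ∈ 𝓑, ∀ ε : ℝ, 0 < ε → ∃ᶠ X : ℝ in atTop, X ^ (1 - ε) ≤
      (Set.ncard {x : ℕ | (x : ℝ) ≤ X ∧ Q x ∧ F x = B} : ℝ) := by
  classical
  by_contra hcon
  push Not at hcon
  have hcon' : ∀ B : Finset ℕ, ∃ ε : ℝ, 0 < ε ∧ (B ∈ 𝓑 → ∀ᶠ X : ℝ in atTop,
      (Set.ncard {x : ℕ | (x : ℝ) ≤ X ∧ Q x ∧ F x = B} : ℝ) < X ^ (1 - ε)) := by
    intro B
    by_cases hB : B ∈ 𝓑
    · obtain ⟨ε, hε, he⟩ := hcon B hB
      refine ⟨ε, hε, fun _ => ?_⟩
      filter_upwards [he] with X hX
      exact hX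
    · exact ⟨1, one_pos, fun h => absurd h hB⟩
  choose e he0 he using hcon'
  rcases 𝓑.eq_empty_or_nonempty with h0 | hne
  · subst h0
    obtain ⟨X, h1, h2⟩ := ((h 1 one_pos).and (eventually_gt_atTop (0 : ℝ))).exists
    simp at h1
    linarith
  obtain ⟨B0, hB0, hmin⟩ := 𝓑.exists_min_image e hne
  set η : ℝ := min (e B0) 1 with hη
  have hη0 : 0 < η := lt_min (he0 B0) one_pos
  have hall : ∀ᶠ X : ℝ in atTop, ∀ B ∈ 𝓑,
      (Set.ncard {x : ℕ | (x : ℝ) ≤ X ∧ Q x ∧ F x = B} : ℝ) < X ^ (1 - e B) :=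
    (Filter.eventually_all_finset 𝓑).2 fun B hB => he B hB
  obtain ⟨X, hX1, hX2, hX3, hX4⟩ := ((h (η / 2) (by linarith)).and (hall.and
    ((eventually_ge_atTop (1 : ℝ)).and ((tendsto_rpow_atTop
      (show (0 : ℝ) < η / 2 by linarith)).eventually_gt_atTop (𝓑.card : ℝ))))).exists
  have hsub : {x : ℕ | (x : ℝ) ≤ X ∧ Q x ∧ F x ∈ 𝓑} ⊆
      ⋃ B ∈ 𝓑, {x : ℕ | (x : ℝ) ≤ X ∧ Q x ∧ F x = B} := by
    rintro x ⟨h1, h2, h3⟩
    exact Set.mem_biUnion h3 ⟨h1, h2, rfl⟩
  have hfin : (⋃ B ∈ 𝓑, {x : ℕ | (x : ℝ) ≤ X ∧ Q x ∧ F x = B}).Finite :=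
    Set.Finite.biUnion 𝓑.finite_toSet fun B _ => fin_set X _
  have hle : (Set.ncard {x : ℕ | (x : ℝ) ≤ X ∧ Q x ∧ F x ∈ 𝓑} : ℝ) ≤ (𝓑.card : ℝ) * X ^ (1 - η) := by
    have h1 : Set.ncard {x : ℕ | (x : ℝ) ≤ X ∧ Q x ∧ F x ∈ 𝓑} ≤
        ∑ B ∈ 𝓑, Set.ncard {x : ℕ | (x : ℝ) ≤ X ∧ Q x ∧ F x = B} :=
      (Set.ncard_le_ncard hsub hfin).trans (Finset.set_ncard_biUnion_le 𝓑 _)
    calc (Set.ncard {x : ℕ | (x : ℝ) ≤ X ∧ Q x ∧ F x ∈ 𝓑} : ℝ)
        ≤ ∑ B ∈ 𝓑, (Set.ncard {x : ℕ | (x : ℝ) ≤ X ∧ Q x ∧ F x = B} : ℝ) := by exact_mod_cast h1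
      _ ≤ ∑ _B ∈ 𝓑, X ^ (1 - η) := by
          refine Finset.sum_le_sum fun B hB => (hX2 B hB).le.trans ?_
          refine Real.rpow_le_rpow_of_exponent_le hX3 ?_
          have h2 : η ≤ e B0 := min_le_left _ _
          have h3 := hmin B hB
          linarith
      _ = (𝓑.card : ℝ) * X ^ (1 - η) := by rw [Finset.sum_const, nsmul_eq_mul]
  have h5 : X ^ (1 - η / 2) = X ^ (1 - η) * X ^ (η / 2) := by
    rw [← Real.rpow_add (by linarith)]
    congr 1
    ring
  have h6 : 0 < X ^ (1 - η) := Real.rpow_pos_of_pos (by linarith) _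
  have h7 := hX1.trans hle
  rw [h5] at h7
  nlinarith

/-- a lower bound for the number of sets that hit every `K`-subset from inside -/
theorem double_count {S : Finset ℕ} {K m : ℕ} (hK : K ≤ S.card) (𝓑 : Finset (Finset ℕ))
    (h : ∀ T ⊆ S, T.card = K → ∃ B ∈ 𝓑, B ⊆ T ∧ m ≤ B.card) :
    S.card.choose m ≤ K.choose m * 𝓑.card := by
  classical
  have hmK : m ≤ K := by
    obtain ⟨T, hT, hTc⟩ := Finset.exists_subset_card_eq hK
    obtain ⟨B, -, hB, hm⟩ := h T hT hTc
    exact hm.trans (hTc ▸ Finset.card_le_card hB)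
  set n : ℕ := S.card with hn
  -- for each relevant `B` a subset with `m` elements
  have hcount : ∀ B' : Finset ℕ, B'.card = m → B' ⊆ S →
      ((S.powersetCard K).filter fun T => B' ⊆ T).card ≤ (n - m).choose (K - m) := by
    intro B' hB' hBS
    have h1 : (n - m).choose (K - m) = ((S \ B').powersetCard (K - m)).card := by
      rw [Finset.card_powersetCard, Finset.card_sdiff_of_subset hBS, hB']
    rw [h1]
    refine Finset.card_le_card_of_injOn (fun T => T \ B') ?_ ?_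
    · intro T hT
      rw [Finset.mem_coe, Finset.mem_filter, Finset.mem_powersetCard] at hT
      rw [Finset.mem_coe, Finset.mem_powersetCard]
      refine ⟨Finset.sdiff_subset_sdiff hT.1.1 (Finset.Subset.refl _), ?_⟩
      rw [Finset.card_sdiff_of_subset hT.2, hT.1.2, hB']
    · intro T hT T' hT' he
      rw [Finset.mem_coe, Finset.mem_filter] at hT hT'
      have he' : T \ B' = T' \ B' := he
      rw [← Finset.sdiff_union_of_subset hT.2, ← Finset.sdiff_union_of_subset hT'.2, he']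
  have hcover : (S.powersetCard K) ⊆ (𝓑.filter fun B => m ≤ B.card ∧ B ⊆ S).biUnion
      fun B => (S.powersetCard K).filter fun T => B ⊆ T := by
    intro T hT
    obtain ⟨hTS, hTc⟩ := Finset.mem_powersetCard.1 hT
    obtain ⟨B, hB, hBT, hm⟩ := h T hTS hTc
    rw [Finset.mem_biUnion]
    exact ⟨B, Finset.mem_filter.2 ⟨hB, hm, hBT.trans hTS⟩, Finset.mem_filter.2 ⟨hT, hBT⟩⟩
  have hle : n.choose K ≤ 𝓑.card * (n - m).choose (K - m) := by
    calc n.choose K = (S.powersetCard K).card := (Finset.card_powersetCard K S).symm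
      _ ≤ _ := Finset.card_le_card hcover
      _ ≤ ∑ B ∈ 𝓑.filter fun B => m ≤ B.card ∧ B ⊆ S,
          ((S.powersetCard K).filter fun T => B ⊆ T).card := Finset.card_biUnion_le
      _ ≤ ∑ _B ∈ 𝓑.filter fun B => m ≤ B.card ∧ B ⊆ S, (n - m).choose (K - m) := by
          refine Finset.sum_le_sum fun B hB => ?_
          obtain ⟨-, hm, hBS⟩ := Finset.mem_filter.1 hB
          obtain ⟨B', hB', hc'⟩ := Finset.exists_subset_card_eq hm
          refine (Finset.card_le_card ?_).trans (hcount B' hc' (hB'.trans hBS))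
          intro T hT
          rw [Finset.mem_filter] at hT ⊢
          exact ⟨hT.1, hB'.trans hT.2⟩
      _ = (𝓑.filter fun B => m ≤ B.card ∧ B ⊆ S).card * (n - m).choose (K - m) := by
          rw [Finset.sum_const, smul_eq_mul]
      _ ≤ 𝓑.card * (n - m).choose (K - m) :=
          Nat.mul_le_mul_right _ (Finset.card_filter_le _ _)
  have hid : n.choose K * K.choose m = n.choose m * (n - m).choose (K - m) :=
    Nat.choose_mul hmK
  have hpos : 0 < (n - m).choose (K - m) := Nat.choose_pos (by omega)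
  refine Nat.le_of_mul_le_mul_right (c := (n - m).choose (K - m)) ?_ hpos
  calc n.choose m * (n - m).choose (K - m) = n.choose K * K.choose m := hid.symm
    _ ≤ 𝓑.card * (n - m).choose (K - m) * K.choose m := Nat.mul_le_mul_right _ hle
    _ = K.choose m * 𝓑.card * (n - m).choose (K - m) := by ring

theorem recurs_subset {j k : ℕ} {B : Finset ℕ} (h : Recurs j k B) : B ⊆ Ioc 0 k := by
  obtain ⟨X, h1, h2⟩ := ((h 1 one_pos).and_eventually (eventually_gt_atTop (0 : ℝ))).exists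
  have h3 : (0 : ℝ) < (Set.ncard {x : ℕ | (x : ℝ) ≤ X ∧ (∀ p : ℕ, p.Prime → p ≤ k → x ≡ j [MOD p]) ∧
      primePattern x k = B} : ℝ) := lt_of_lt_of_le (Real.rpow_pos_of_pos h2 _) h1
  have h4 := Set.nonempty_of_ncard_ne_zero (Nat.cast_pos.1 h3).ne'
  obtain ⟨x, -, -, hx⟩ := h4
  rw [← hx]
  exact Finset.filter_subset _ _

theorem finite_recurs (j k m : ℕ) : {B : Finset ℕ | m ≤ B.card ∧ Recurs j k B}.Finite :=
  ((Ioc 0 k).powerset.finite_toSet).subset fun _ hB =>
    Finset.mem_coe.2 (Finset.mem_powerset.2 (recurs_subset hB.2))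

/-- **The number of recurring patterns in a sieve window.** -/
theorem count_patterns {t K : ℕ} (hC : CHyp t K) {j k : ℕ} (hK : K ≤ (survivors j k).card) :
    (survivors j k).card.choose (t + 1) ≤
      K.choose (t + 1) * Set.ncard {B : Finset ℕ | t + 1 ≤ B.card ∧ Recurs j k B} := by
  classical
  rw [Set.ncard_eq_toFinset_card _ (finite_recurs j k (t + 1))]
  refine double_count hK _ fun T hT hTc => ?_
  set 𝓑 : Finset (Finset ℕ) := T.powerset.filter fun B => t + 1 ≤ B.card with h𝓑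
  obtain ⟨B, hB, hBr⟩ := pigeon (F := fun x => primePattern x k)
    (Q := fun x => ∀ p : ℕ, p.Prime → p ≤ k → x ≡ j [MOD p]) 𝓑 (fun ε hε => by
      filter_upwards [sub_pattern hC hT hTc ε hε] with X hX
      refine hX.trans (le_of_eq ?_)
      congr 2
      ext x
      simp only [h𝓑, Set.mem_ofPred_eq, Finset.mem_filter, Finset.mem_powerset])
  rw [h𝓑, Finset.mem_filter, Finset.mem_powerset] at hB
  exact ⟨B, (Set.Finite.mem_toFinset _).2 ⟨hB.2, hBr⟩, hB.1, hB.2⟩

end Pool.Agent.T9h60.PC
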